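import Mathlib

/-!
A countably compact Hausdorff space with no symmetric well ordering of its closed sets.

Points: subsets of size at most aleph one of a set of larger size. A set is closed when it
contains the product closure of each of its countable subsets.
-/

open Set Filter Topology

namespace Pool.Agent.P.MP_fafcbd_gt

/-- the well order of type omega one -/
abbrev I : Type := (Cardinal.aleph 1).ord.ToType

/-- the coordinates -/
abbrev K : Type := Set I

/-- size at most aleph one -/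
def Small {α : Type} (S : Set α) : Prop := Cardinal.mk S ≤ Cardinal.aleph 1

lemma Small.mono {α : Type} {S T : Set α} (h : Small T) (hST : S ⊆ T) : Small S :=
  (Cardinal.mk_le_mk_of_subset hST).trans h

lemma Small.union {α : Type} {S T : Set α} (hS : Small S) (hT : Small T) : Small (S ∪ T) :=
  (Cardinal.mk_union_le S T).trans
    (Cardinal.add_le_of_le (Cardinal.aleph0_le_aleph 1) hS hT)

lemma small_singleton {α : Type} (x : α) : Small ({x} : Set α) := by
  unfold Small
  rw [Cardinal.mk_singleton]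
  exact Cardinal.one_le_aleph0.trans (Cardinal.aleph0_le_aleph 1)

lemma small_empty {α : Type} : Small (∅ : Set α) := by
  unfold Small
  simp

lemma Small.image {α β : Type} {S : Set α} (h : Small S) (f : α → β) : Small (f '' S) :=
  Cardinal.mk_image_le.trans h

lemma small_iUnion {α J : Type} (hJ : Cardinal.mk J ≤ Cardinal.aleph 1) (f : J → Set α)
    (hf : ∀ j, Small (f j)) : Small (⋃ j, f j) := by
  refine (Cardinal.mk_iUnion_le_sum_mk).trans ?_
  refine (Cardinal.sum_le_sum _ (fun _ => Cardinal.aleph 1) hf).trans ?_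
  rw [Cardinal.sum_const']
  exact Cardinal.mul_le_of_le (Cardinal.aleph0_le_aleph 1) hJ le_rfl

lemma mk_I : Cardinal.mk I = Cardinal.aleph 1 := Cardinal.mk_ord_toType _

lemma exists_fresh {S : Set K} (h : Small S) : ∃ v, v ∉ S := by
  by_contra hne
  push Not at hne
  have hS : S = univ := eq_univ_of_forall hne
  unfold Small at h
  rw [hS, Cardinal.mk_univ, Cardinal.mk_set, mk_I] at h
  exact absurd h (not_le.2 (Cardinal.cantor _))

lemma countable_Iio (i : I) : (Iio i).Countable := by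
  have h : Cardinal.mk (Iio i) < Cardinal.aleph 1 := by
    have := Cardinal.mk_Iio_lt i (by simp)
    rwa [mk_I] at this
  rw [← Cardinal.le_aleph0_iff_set_countable]
  exact Order.lt_succ_iff.1 (h.trans_eq Cardinal.succ_aleph0.symm)

lemma exists_bound {T : Set I} (hT : T.Countable) : ∃ j, ∀ t ∈ T, t < j := by
  by_contra hne
  push Not at hne
  have h1 : (univ : Set I) ⊆ ⋃ t ∈ T, (insert t (Iio t)) := by
    intro j _
    obtain ⟨t, ht, hjt⟩ := hne j
    refine mem_biUnion ht ?_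
    rcases hjt.eq_or_lt with h | h
    · exact Or.inl h
    · exact Or.inr h
  have h2 : (univ : Set I).Countable :=
    (hT.biUnion fun t _ => (countable_Iio t).insert t).mono h1
  rw [← Cardinal.le_aleph0_iff_set_countable, Cardinal.mk_univ, mk_I] at h2
  exact absurd h2 (not_le.2 Cardinal.aleph0_lt_aleph_one)

/-- the points -/
structure X : Type where
  /-- the characteristic function -/
  val : K → Bool
  small : Small {v | val v = true}

lemma X.val_injective : Function.Injective X.val := by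
  rintro ⟨u, hu⟩ ⟨v, hv⟩ h
  cases h
  rfl

instance : Nonempty X := ⟨⟨fun _ => false, by simpa using small_empty⟩⟩

/-- the closed sets -/
def Cl (F : Set X) : Prop :=
  ∀ A ⊆ F, A.Countable → ∀ p : X, p.1 ∈ closure (X.val '' A) → p ∈ F

/-- small functional relations -/
def Cond (s : Set (K × Bool)) : Prop :=
  Small s ∧ ∀ v a b, (v, a) ∈ s → (v, b) ∈ s → a = b

/-- cylinders -/
def cyl (s : Set (K × Bool)) : Set X := {u | ∀ p ∈ s, u.1 p.1 = p.2}

/-- domains -/
def dom (s : Set (K × Bool)) : Set K := Prod.fst '' s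

lemma dom_mono {s t : Set (K × Bool)} (h : s ⊆ t) : dom s ⊆ dom t := image_mono h

lemma cyl_anti {s t : Set (K × Bool)} (h : s ⊆ t) : cyl t ⊆ cyl s :=
  fun _ hu p hp => hu p (h hp)

lemma cyl_nonempty {s : Set (K × Bool)} (hs : Cond s) : (cyl s).Nonempty := by
  classical
  refine ⟨⟨fun v => decide ((v, true) ∈ s), ?_⟩, ?_⟩
  · refine (hs.1.image Prod.fst).mono ?_
    intro v hv
    exact ⟨(v, true), by simpa using hv, rfl⟩
  · rintro ⟨v, b⟩ hp
    cases b
    · have : (v, true) ∉ s := fun h => by simpa using hs.2 v _ _ h hp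
      simpa using this
    · simpa using hp

lemma eq_of_closure {A : Set X} {v : K} {b : Bool} (h : ∀ u ∈ A, u.1 v = b) {p : K → Bool}
    (hp : p ∈ closure (X.val '' A)) : p v = b := by
  have hc : IsClosed {q : K → Bool | q v = b} :=
    isClosed_eq (continuous_apply v) continuous_const
  refine closure_minimal ?_ hc hp
  rintro _ ⟨u, hu, rfl⟩
  exact h u hu

lemma cl_cyl (s : Set (K × Bool)) : Cl (cyl s) :=
  fun _ hA _ _ hp q hq => eq_of_closure (fun _ hu => hA hu q hq) hp

lemma cl_of_isClosed {F : Set X} (h : IsClosed (X.val '' F)) : Cl F := by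
  intro A hA _ p hp
  obtain ⟨q, hq, hqp⟩ := closure_minimal (image_mono hA) h hp
  rwa [← X.val_injective hqp]

/-- extend `s` by `t` outside the domain of `s` -/
def glue (s t : Set (K × Bool)) : Set (K × Bool) := s ∪ {p ∈ t | p.1 ∉ dom s}

lemma cond_glue {s t : Set (K × Bool)} (hs : Cond s) (ht : Cond t) : Cond (glue s t) := by
  refine ⟨hs.1.union (ht.1.mono fun p hp => hp.1), ?_⟩
  rintro v a b (ha | ha) (hb | hb)
  · exact hs.2 v a b ha hb
  · exact absurd ⟨_, ha, rfl⟩ hb.2
  · exact absurd ⟨_, hb, rfl⟩ ha.2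
  · exact ht.2 v a b ha.1 hb.1

lemma dom_glue (s t : Set (K × Bool)) : dom (glue s t) = dom s ∪ dom t := by
  ext v
  constructor
  · rintro ⟨p, hp | hp, rfl⟩
    · exact Or.inl ⟨p, hp, rfl⟩
    · exact Or.inr ⟨p, hp.1, rfl⟩
  · rintro (⟨p, hp, rfl⟩ | ⟨p, hp, rfl⟩)
    · exact ⟨p, Or.inl hp, rfl⟩
    · by_cases h : p.1 ∈ dom s
      · obtain ⟨q, hq, hqp⟩ := h
        exact ⟨q, Or.inl hq, hqp⟩
      · exact ⟨p, Or.inr ⟨hp, h⟩, rfl⟩

section Order

variable [LinearOrder X] (M : Set (K × Bool) → X)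

/-- First case: maxima can always be pushed down. -/
lemma no_least (hM : ∀ s, Cond s → IsGreatest (cyl s) (M s)) {s : Set (K × Bool)} (hs : Cond s)
    (hP : ∀ s' s'', Cond s' → Cond s'' → s ⊆ s' → s ⊆ s'' →
      ∃ t, Cond t ∧ s' ⊆ t ∧ M t < M s'') :
    ∃ F : Set X, Cl F ∧ F.Nonempty ∧ ¬ ∃ a, IsLeast F a := by
  have step : ∀ t : Set (K × Bool), ∀ D : Set K, Cond t → s ⊆ t → Small D →
      ∃ t', Cond t' ∧ s ⊆ t' ∧ M t' < M t ∧ ∀ w ∈ D, (M t').1 w = (M s).1 w := by
    intro t D ht hst hD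
    have hc : Cond ((fun w => (w, (M s).1 w)) '' (D ∪ dom s)) := by
      refine ⟨(hD.union (hs.1.image _)).image _, ?_⟩
      rintro v a b ⟨w, -, hw⟩ ⟨w', -, hw'⟩
      simp only [Prod.mk.injEq] at hw hw'
      rw [← hw.2, ← hw'.2, hw.1, hw'.1]
    have hsub : s ⊆ (fun w => (w, (M s).1 w)) '' (D ∪ dom s) := by
      intro p hp
      refine ⟨p.1, Or.inr ⟨p, hp, rfl⟩, ?_⟩
      have := (hM s hs).1 p hp
      simp [this]
    obtain ⟨t', h1, h2, h3⟩ := hP _ t hc ht hsub hst
    exact ⟨t', h1, hsub.trans h2, h3, fun w hw => (hM t' h1).1 _ (h2 ⟨w, Or.inl hw, rfl⟩)⟩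
  choose! nx hnx using step
  have hdiff : ∀ u : X, Small {w | u.1 w ≠ (M s).1 w} := by
    intro u
    refine (u.2.union (M s).2).mono ?_
    intro w hw
    simp only [mem_ofPred_eq, mem_union] at hw ⊢
    revert hw
    cases u.1 w <;> cases (M s).1 w <;> simp
  let sq : ℕ → Set (K × Bool) × Set K := fun n => Nat.rec (s, ∅)
    (fun _ q => (nx q.1 (q.2 ∪ {w | (M q.1).1 w ≠ (M s).1 w}),
      q.2 ∪ {w | (M q.1).1 w ≠ (M s).1 w})) n
  have sq1 : ∀ n, (sq (n + 1)).1 = nx (sq n).1 (sq (n + 1)).2 := fun n => rfl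
  have sq2 : ∀ n, (sq (n + 1)).2 = (sq n).2 ∪ {w | (M (sq n).1).1 w ≠ (M s).1 w} := fun n => rfl
  have inv : ∀ n, Cond (sq n).1 ∧ s ⊆ (sq n).1 ∧ Small (sq n).2 := by
    intro n
    induction n with
    | zero => exact ⟨hs, subset_rfl, small_empty⟩
    | succ n ih =>
      have h3 : Small (sq (n + 1)).2 := by rw [sq2]; exact ih.2.2.union (hdiff _)
      have := hnx _ _ ih.1 ih.2.1 h3
      rw [sq1]
      exact ⟨this.1, this.2.1, h3⟩
  have hlt : ∀ n, M (sq (n + 1)).1 < M (sq n).1 := fun n => by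
    rw [sq1]; exact (hnx _ _ (inv n).1 (inv n).2.1 (inv (n + 1)).2.2).2.2.1
  have hag : ∀ n, ∀ w ∈ (sq (n + 1)).2, (M (sq (n + 1)).1).1 w = (M s).1 w := fun n => by
    rw [sq1]; exact (hnx _ _ (inv n).1 (inv n).2.1 (inv (n + 1)).2.2).2.2.2
  have hmono : Monotone fun n => (sq n).2 :=
    monotone_nat_of_le_succ fun n => by
      show (sq n).2 ⊆ (sq (n + 1)).2
      rw [sq2]; exact subset_union_left
  have htend : Tendsto (fun n => (M (sq n).1).1) atTop (𝓝 (M s).1) := by
    rw [tendsto_pi_nhds]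
    intro w
    refine tendsto_const_nhds.congr' ?_
    by_cases h : ∃ n, (M (sq n).1).1 w ≠ (M s).1 w
    · obtain ⟨n, hn⟩ := h
      filter_upwards [eventually_ge_atTop (n + 1)] with m hm
      obtain ⟨m, rfl⟩ : ∃ k, m = k + 1 := ⟨m - 1, by omega⟩
      refine (hag m w (hmono hm ?_)).symm
      show w ∈ (sq (n + 1)).2
      rw [sq2]; exact Or.inr hn
    · push Not at h
      exact Eventually.of_forall fun n => (h n).symm
  refine ⟨range fun n => M (sq n).1, ?_, range_nonempty _, ?_⟩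
  · apply cl_of_isClosed
    have := htend.isCompact_insert_range.isClosed
    convert this using 1
    rw [← range_comp, insert_eq_of_mem]
    · rfl
    · exact ⟨0, rfl⟩
  · rintro ⟨a, ⟨n, rfl⟩, ha⟩
    exact absurd (ha ⟨n + 1, rfl⟩) (not_le.2 (hlt n))

/-- Second case: an increasing chain of length omega one of cylinders with closed union. -/
lemma no_greatest (hM : ∀ s, Cond s → IsGreatest (cyl s) (M s))
    (hP : ∀ s, Cond s → ∃ s' s'', Cond s' ∧ Cond s'' ∧ s ⊆ s' ∧ s ⊆ s'' ∧
      ∀ t, Cond t → s' ⊆ t → M s'' ≤ M t) :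
    ∃ F : Set X, Cl F ∧ F.Nonempty ∧ ¬ ∃ a, IsGreatest F a := by
  have step : ∀ s, Cond s → ∃ a b, Cond a ∧ Cond b ∧ s ⊆ a ∧ s ⊆ b ∧ dom a = dom b ∧
      ∀ t, Cond t → a ⊆ t → M b < M t := by
    intro s hs
    obtain ⟨s', s'', h1, h2, h3, h4, h5⟩ := hP s hs
    obtain ⟨v, hv⟩ := exists_fresh (h2.1.image Prod.fst)
    have hc : Cond {(v, !(M s'').1 v)} := by
      refine ⟨small_singleton _, ?_⟩
      intro w a b ha hb
      simp only [mem_singleton_iff, Prod.mk.injEq] at ha hb
      rw [ha.2, hb.2]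
    have hb0 : Cond (glue s'' {(v, !(M s'').1 v)}) := cond_glue h2 hc
    have hb : Cond (glue (glue s'' {(v, !(M s'').1 v)}) s') := cond_glue hb0 h1
    have hsub : s'' ⊆ glue (glue s'' {(v, !(M s'').1 v)}) s' := fun p hp => Or.inl (Or.inl hp)
    refine ⟨glue s' (glue s'' {(v, !(M s'').1 v)}), _, cond_glue h1 hb0, hb,
      h3.trans subset_union_left, h4.trans hsub, ?_, ?_⟩
    · rw [dom_glue s', dom_glue _ s', union_comm]
    · intro t ht hat
      refine lt_of_lt_of_le ?_ (h5 t ht (subset_union_left.trans hat))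
      refine lt_of_le_of_ne ((hM _ h2).2 (cyl_anti hsub (hM _ hb).1)) fun he => ?_
      have := (hM _ hb).1 (v, !(M s'').1 v) (Or.inl (Or.inr ⟨rfl, hv⟩))
      rw [he] at this
      simp at this
  choose! a b hab using step
  let S : I → Set (K × Bool) := (wellFounded_lt (α := I)).fix
    fun i ih => ⋃ j : Iio i, a (ih j.1 j.2)
  have hS : ∀ i, S i = ⋃ j : Iio i, a (S j.1) := fun i => by
    show (wellFounded_lt (α := I)).fix _ i = _
    rw [WellFounded.fix_eq]
  have haS : ∀ i j, j < i → a (S j) ⊆ S i := fun i j h => by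
    rw [hS i]; exact subset_iUnion (fun j : Iio i => a (S j.1)) ⟨j, h⟩
  have hSc : ∀ i, Cond (S i) := by
    intro i
    induction i using (wellFounded_lt (α := I)).induction with
    | _ i ih =>
      refine ⟨?_, ?_⟩
      · rw [hS i]
        refine small_iUnion ?_ _ fun j => (hab _ (ih j.1 j.2)).1.1
        exact (Cardinal.mk_subtype_le _).trans mk_I.le
      · have key : ∀ j j' : I, j ≤ j' → j' < i → a (S j) ⊆ a (S j') := by
          intro j j' h h'
          rcases h.eq_or_lt with rfl | h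
          · exact subset_rfl
          · exact (haS _ _ h).trans (hab _ (ih j' h')).2.2.1
        intro v x y hx hy
        rw [hS i] at hx hy
        obtain ⟨j, hj⟩ := mem_iUnion.1 hx
        obtain ⟨j', hj'⟩ := mem_iUnion.1 hy
        rcases le_total j.1 j'.1 with h | h
        · exact (hab _ (ih j'.1 j'.2)).1.2 v x y (key _ _ h j'.2 hj) hj'
        · exact (hab _ (ih j.1 j.2)).1.2 v x y hj (key _ _ h j.2 hj')
  have hSm : ∀ i j, i ≤ j → S i ⊆ S j := by
    intro i j h
    rcases h.eq_or_lt with rfl | h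
    · exact subset_rfl
    · exact (hab _ (hSc i)).2.2.1.trans (haS _ _ h)
  let c : I → Set (K × Bool) := fun i => {p ∈ b (S i) | p.1 ∉ dom (S i)}
  let h : I → Set (K × Bool) := fun j => S j ∪ ⋃ i : Ici j, c i.1
  have hcd : ∀ i i', i < i' → ∀ p ∈ c i, p.1 ∈ dom (S i') := by
    intro i i' hi p hp
    refine dom_mono (haS _ _ hi) ?_
    rw [(hab _ (hSc i)).2.2.2.2.1]
    exact ⟨p, hp.1, rfl⟩
  have hhc : ∀ j, Cond (h j) := by
    intro j
    refine ⟨(hSc j).1.union (small_iUnion ((Cardinal.mk_subtype_le _).trans mk_I.le) _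
      fun i => (hab _ (hSc i.1)).2.1.1.mono fun p hp => hp.1), ?_⟩
    rintro v x y (hx | hx) (hy | hy)
    · exact (hSc j).2 v x y hx hy
    · obtain ⟨i, hi⟩ := mem_iUnion.1 hy
      exact absurd (dom_mono (hSm _ _ i.2) ⟨_, hx, rfl⟩) hi.2
    · obtain ⟨i, hi⟩ := mem_iUnion.1 hx
      exact absurd (dom_mono (hSm _ _ i.2) ⟨_, hy, rfl⟩) hi.2
    · obtain ⟨i, hi⟩ := mem_iUnion.1 hx
      obtain ⟨i', hi'⟩ := mem_iUnion.1 hy
      rcases lt_trichotomy i.1 i'.1 with hh | hh | hh
      · exact absurd (hcd _ _ hh _ hi) hi'.2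
      · have h2 := hi'.1
        rw [← hh] at h2
        exact (hab _ (hSc i.1)).2.1.2 v x y hi.1 h2
      · exact absurd (hcd _ _ hh _ hi') hi.2
  have hbh : ∀ j, b (S j) ⊆ h j := by
    intro j p hp
    by_cases hd : p.1 ∈ dom (S j)
    · obtain ⟨q, hq, hqp⟩ := hd
      have := (hab _ (hSc j)).2.1.2 p.1 q.2 p.2
        (by rw [← hqp]; exact (hab _ (hSc j)).2.2.2.1 hq) hp
      have hqp' : q = p := Prod.ext hqp this
      exact Or.inl (hqp' ▸ hq)
    · exact Or.inr (mem_iUnion.2 ⟨⟨j, le_refl j⟩, hp, hd⟩)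
  have hlt : ∀ i j, i < j → M (h i) < M (h j) := by
    intro i j hij
    refine lt_of_le_of_lt ((hM _ (hab _ (hSc i)).2.1).2 (cyl_anti (hbh i) (hM _ (hhc i)).1)) ?_
    exact (hab _ (hSc i)).2.2.2.2.2 _ (hhc j) ((haS _ _ hij).trans subset_union_left)
  refine ⟨⋃ j, cyl (h j), ?_, ?_, ?_⟩
  · intro A hA hAc p hp
    have hj : ∀ u ∈ A, ∃ j, u ∈ cyl (h j) := fun u hu => mem_iUnion.1 (hA hu)
    have : Nonempty I := ⟨(exists_bound countable_empty).choose⟩
    choose! J hJ using hj
    obtain ⟨l, hl⟩ := exists_bound (hAc.image J)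
    have hne : {j | p.1 ∈ closure (X.val '' {u ∈ A | J u ≤ j})}.Nonempty := by
      refine ⟨l, closure_mono (image_mono ?_) hp⟩
      exact fun u hu => ⟨hu, (hl _ ⟨u, hu, rfl⟩).le⟩
    obtain ⟨j, hj, hmin⟩ := (wellFounded_lt (α := I)).has_min _ hne
    refine mem_iUnion.2 ⟨j, ?_⟩
    rintro q (hq | hq)
    · rw [hS j] at hq
      obtain ⟨i, hi⟩ := mem_iUnion.1 hq
      have hsplit : {u ∈ A | J u ≤ j} ⊆ {u ∈ A | J u ≤ i.1} ∪ {u ∈ A | i.1 < J u} := by
        intro u hu
        rcases le_or_gt (J u) i.1 with hh | hh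
        · exact Or.inl ⟨hu.1, hh⟩
        · exact Or.inr ⟨hu.1, hh⟩
      have h2 := closure_mono (image_mono hsplit) hj
      rw [image_union, closure_union] at h2
      rcases h2 with h2 | h2
      · exact absurd i.2 (hmin _ h2)
      · exact eq_of_closure (fun u hu => hJ u hu.1 q (Or.inl (haS _ _ hu.2 hi))) h2
    · obtain ⟨i, hi⟩ := mem_iUnion.1 hq
      exact eq_of_closure
        (fun u hu => hJ u hu.1 q (Or.inr (mem_iUnion.2 ⟨⟨i.1, hu.2.trans i.2⟩, hi⟩))) hj
  · obtain ⟨l, -⟩ := exists_bound countable_empty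
    exact (cyl_nonempty (hhc l)).mono (subset_iUnion (fun j => cyl (h j)) l)
  · rintro ⟨g, hg, hmax⟩
    obtain ⟨j, hj⟩ := mem_iUnion.1 hg
    obtain ⟨l, hl⟩ := exists_bound (countable_singleton j)
    have h1 := hmax (mem_iUnion.2 ⟨l, (hM _ (hhc l)).1⟩)
    exact absurd (h1.trans ((hM _ (hhc j)).2 hj)) (not_le.2 (hlt _ _ (hl j rfl)))

lemma core : ∃ F : Set X, Cl F ∧ F.Nonempty ∧
    ((¬ ∃ a, IsLeast F a) ∨ ¬ ∃ a, IsGreatest F a) := by
  by_cases hmax : ∀ s, Cond s → ∃ a, IsGreatest (cyl s) a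
  · choose! M hM using hmax
    by_cases hP : ∃ s, Cond s ∧ ∀ s' s'', Cond s' → Cond s'' → s ⊆ s' → s ⊆ s'' →
        ∃ t, Cond t ∧ s' ⊆ t ∧ M t < M s''
    · obtain ⟨s, hs, hP⟩ := hP
      obtain ⟨F, h1, h2, h3⟩ := no_least M hM hs hP
      exact ⟨F, h1, h2, Or.inl h3⟩
    · push Not at hP
      obtain ⟨F, h1, h2, h3⟩ := no_greatest M hM fun s hs => by
        obtain ⟨s', s'', h1, h2, h3, h4, h5⟩ := hP s hs
        exact ⟨s', s'', h1, h2, h3, h4, h5⟩
      exact ⟨F, h1, h2, Or.inr h3⟩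
  · push Not at hmax
    obtain ⟨s, hs, h⟩ := hmax
    exact ⟨cyl s, cl_cyl s, cyl_nonempty hs, Or.inr fun ⟨a, ha⟩ => h a ha⟩

end Order

/-- the topology -/
@[reducible] def top : TopologicalSpace X :=
  TopologicalSpace.ofClosed {F | Cl F}
    (fun A hA _ p hp => by
      rw [subset_empty_iff.1 hA] at hp
      simp at hp)
    (fun _ hT A hA hAc p hp F hF => hT hF A (hA.trans (sInter_subset_of_mem hF)) hAc p hp)
    (fun F hF G hG A hA hAc p hp => by
      have : A = A ∩ F ∪ A ∩ G := by rw [← inter_union_distrib_left, inter_eq_left.2 hA]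
      rw [this, image_union, closure_union] at hp
      rcases hp with hp | hp
      · exact Or.inl (hF _ inter_subset_right (hAc.mono inter_subset_left) p hp)
      · exact Or.inr (hG _ inter_subset_right (hAc.mono inter_subset_left) p hp))

lemma isClosed_iff (F : Set X) : IsClosed[top] F ↔ Cl F := by
  let _ := top
  rw [← isOpen_compl_iff]
  show Cl Fᶜᶜ ↔ _
  rw [compl_compl]

lemma continuous_val : Continuous[top, inferInstance] (fun u : X => u.1) := by
  let _ := top
  rw [continuous_iff_isClosed]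
  intro C hC
  rw [isClosed_iff]
  intro A hA _ p hp
  refine closure_minimal ?_ hC hp
  rintro _ ⟨u, hu, rfl⟩
  exact hA hu

lemma t2 : @T2Space X top := by
  let _ := top
  exact T2Space.of_injective_continuous (f := fun u : X => u.1) X.val_injective
    continuous_val

lemma countablyCompact : @CountablyCompactSpace X top := by
  let _ := top
  rw [← isCountablyCompact_univ_iff, isCountablyCompact_iff_seq_clusterPt]
  intro x _
  obtain ⟨q, -, hq⟩ := (isCompact_univ (X := K → Bool)).exists_mapClusterPt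
    (f := atTop) (u := fun n => (x n).1) (by simp)
  have hcl : ∀ n, q ∈ closure (X.val '' (x '' Ici n)) := by
    intro n
    rw [mem_closure_iff_frequently, frequently_iff]
    intro U hU
    obtain ⟨m, hm, hnm⟩ :=
      ((mapClusterPt_iff_frequently.1 hq U hU).and_eventually (eventually_ge_atTop n)).exists
    exact ⟨_, hm, _, ⟨m, hnm, rfl⟩, rfl⟩
  have hsm : Small {v | q v = true} := by
    refine (small_iUnion (J := ℕ) (by simp) _
      fun n => (x n).2).mono ?_
    intro v hv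
    by_contra hn
    simp only [mem_iUnion, mem_ofPred_eq, not_exists, Bool.not_eq_true] at hn
    have := eq_of_closure (v := v) (b := false) (by rintro _ ⟨m, -, rfl⟩; exact hn m) (hcl 0)
    simp [this] at hv
  refine ⟨⟨q, hsm⟩, mem_univ _, mapClusterPt_iff_frequently.2 fun U hU => ?_⟩
  obtain ⟨V, hVU, hV, hqV⟩ := mem_nhds_iff.1 hU
  by_contra hne
  rw [not_frequently, eventually_atTop] at hne
  obtain ⟨n, hn⟩ := hne
  refine (isClosed_iff _).1 hV.isClosed_compl (x '' Ici n) ?_
    ((to_countable _).image _) ⟨q, hsm⟩ (hcl n) hqV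
  rintro _ ⟨m, hm, rfl⟩ h
  exact hn m hm (hVU h)

end Pool.Agent.P.MP_fafcbd_gt
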